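import Mathlib
import Pool.Agent.Helper43.Lr.Defs

/-!
Project UW (MP_d3128a_ag, arbitrary multiplicities at most `c d / (log d)^(3/2)`): definitions.

Rows `0, …, R - 1`, lengths `ℓ y`, `w = R - 1 - y` is the distance of the row `y` to the last row, `ℓs = ℓ (R - 1)`.
`N` ordinary points with multiplicities `ν c` are played one after the other (`Play`, `κ`, `x`, see
`Pool/Agent/Helper43/Lr/Defs.lean`). `K` special points with multiplicities `ρ i` (all close to `μ`) are played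
together in the rows `τ ≤ t < s` in which the ordinary play pauses: the special point `i` has the slope
`e i` and gives `ρ i - P t / e i` to the row `t`. `J = R - 1 - μ`.
-/

set_option autoImplicit false

namespace Pool.Agent.Helper43.Uw

open Finset
open Pool.Agent.Helper43.Gm (st mv nn Run Pri)
open Pool.Agent.Helper43.Hw (T aa ac sc)
open Pool.Agent.Helper43.Lr (na va lz Play NU oo f1 sk U Dd Sd Pn nx bb)

/-- the greedy rule for the rows `Y + 1, …, R - 2` and the lengths `L` -/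
def Gr (ν : ℕ → ℕ) (R N Y : ℕ) (L κ x : ℕ → ℕ) : Prop :=
  ∀ y, Y ≤ y → y + 2 < R → κ y < N →
    (L (y + 1) ≤ bb ν R N κ x y ∧ lz ν R N κ x (y + 1) = bb ν R N κ x y ∧
      ((κ (y + 1) = κ y ∧ x (y + 1) = nx ν R κ x y) ∨
        (κ (y + 1) = κ y + 1 ∧ nx ν R κ x y = ν (κ y) ∧
          (κ (y + 1) < N → x (y + 1) = na ν R (κ (y + 1)) (y + 1))))) ∨
    (bb ν R N κ x y < L (y + 1) ∧
      (lz ν R N κ x (y + 1) = L (y + 1) ∨ (κ (y + 1) = N ∧ lz ν R N κ x (y + 1) ≤ L (y + 1))))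

/-- the rows `0, …, Y` are exactly filled (lengths `L`) and some point has not become old -/
def Ex (ν : ℕ → ℕ) (R N : ℕ) (L κ x : ℕ → ℕ) (Y : ℕ) : Prop :=
  Y < R ∧ κ Y < N ∧ ∀ z ≤ Y, lz ν R N κ x z = L z

/-- the beginning of a play, on the rows `0, …, Y` -/
structure Pre (ν : ℕ → ℕ) (R N Y : ℕ) (κ x : ℕ → ℕ) : Prop where
  mono : ∀ y < Y, κ y ≤ κ (y + 1)
  le : ∀ y ≤ Y, κ y ≤ N
  lt : ∀ y ≤ Y, x y < ν (κ y)
  nat : ∀ y ≤ Y, κ y < N → na ν R (κ y) y ≤ x y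
  fin : ∀ y ≤ Y, κ y = N → x y = 0
  inc : ∀ y < Y, 0 < x y → κ (y + 1) = κ y → x y < x (y + 1)

/-- number of rows before `y` at which the moving point `κ y` has been raised above the natural
value -/
def kk (ν : ℕ → ℕ) (R : ℕ) (κ x : ℕ → ℕ) (y : ℕ) : ℕ :=
  ((range y).filter (fun z => κ z = κ y ∧ na ν R (κ z) z < x z)).card

/-- the points (old or moving) which are alive at the row `y` -/
def Al (ν : ℕ → ℕ) (R : ℕ) (κ x : ℕ → ℕ) (y : ℕ) : Finset ℕ :=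
  (range (κ y + 1)).filter (fun c => ac R κ x c ≤ y ∧ y < ac R κ x c + ν c)

/-- the row lengths (`β = p ^ 2`, `R ≥ 1000`) -/
structure Len (R β : ℕ) (ℓ : ℕ → ℕ) : Prop where
  b1 : 1 ≤ β
  R1 : 1000 ≤ R
  z0 : 100 * ℓ 0 ≤ β * R
  z1 : ℓ 0 < ℓ 1
  st : ∀ y, 1 ≤ y → y + 1 < R → ℓ (y + 1) = ℓ y + β
  lo : ∀ y, 1 ≤ y → y < R → β * (2 * y) ≤ 2 * ℓ y + β
  hi : ∀ y < R, 50 * ℓ y ≤ 51 * (β * R)

/-! ### Special points -/

/-- the first row at which the special point `i` is old -/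
def gs (s : ℕ) (e P : ℕ → ℕ) (i : ℕ) : ℕ := if e i ≤ P (s - 1) then s else s - 1

/-- the special point `i` as a play with one point: `κ` -/
def gk (s : ℕ) (e P : ℕ → ℕ) (i y : ℕ) : ℕ := if y < gs s e P i then 0 else 1

/-- the special point `i` as a play with one point: `x` -/
def gx (τ s : ℕ) (ρ e P : ℕ → ℕ) (i y : ℕ) : ℕ :=
  if τ ≤ y ∧ y < gs s e P i then ρ i - P y / e i else 0

/-- the special points -/
structure Grp (μ R K τ s E : ℕ) (ρ e P : ℕ → ℕ) : Prop where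
  t1 : 1 ≤ τ
  tJ : τ + 1 + μ ≤ R
  ts : τ + 2 ≤ s
  sR : s + 2 ≤ R
  ρ1 : ∀ i < K, 1 ≤ ρ i ∧ ρ i ≤ μ ∧ R < s + 1 + ρ i
  e1 : ∀ i < K, 0 < e i ∧ e i ≤ E ∧ E ≤ 2 * e i
  nd : ∀ i < K, ∀ t, τ ≤ t → t < s → ¬ e i ∣ P t
  dr : ∀ t, τ ≤ t → t + 1 < s → P (t + 1) + E ≤ P t
  ma : ∀ i < K, P (R - 1 - ρ i) / e i < ρ i

/-- what the special point `i` gives to the row `z` -/
def gv (R τ s : ℕ) (ρ e P : ℕ → ℕ) (i z : ℕ) : ℕ :=
  va (fun _ => ρ i) R (gk s e P i) (gx τ s ρ e P i) 0 z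

/-- the first row at which the special point `i` has started -/
def ga (R τ s : ℕ) (ρ e P : ℕ → ℕ) (i : ℕ) : ℕ := ac R (gk s e P i) (gx τ s ρ e P i) 0

/-- the load of the row `z` by the special points -/
def gV (R K τ s : ℕ) (ρ e P : ℕ → ℕ) (z : ℕ) : ℕ := ∑ i ∈ range K, gv R τ s ρ e P i z

/-- number of special points alive at the row `y` (old) -/
def gO (R K τ s : ℕ) (ρ e P : ℕ → ℕ) (y : ℕ) : ℕ :=
  ∑ i ∈ range K, oo (fun _ => ρ i) R (gk s e P i) (gx τ s ρ e P i) y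

/-- number of skips of the special points between the rows `y` and `y + 1` -/
def gK (K τ s : ℕ) (ρ e P : ℕ → ℕ) (y : ℕ) : ℕ :=
  ∑ i ∈ range K, sk (fun _ => ρ i) (gk s e P i) (gx τ s ρ e P i) y

/-- `Dd` for the special points -/
def gD (R K τ s : ℕ) (ρ e P : ℕ → ℕ) (y : ℕ) : ℕ :=
  ∑ i ∈ range K, Dd (fun _ => ρ i) R (gk s e P i) (gx τ s ρ e P i) y

/-- `Sd` for the special points -/
def gS (R K τ s : ℕ) (ρ e P : ℕ → ℕ) (y : ℕ) : ℕ :=
  ∑ i ∈ range K, Sd (fun _ => ρ i) R (gk s e P i) (gx τ s ρ e P i) y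

/-- number of the skips of the special points at distance `≤ w` from the last row -/
def gQ (R K τ s : ℕ) (ρ e P : ℕ → ℕ) (w : ℕ) : ℕ :=
  ∑ i ∈ range K, ((range s).filter (fun t => 0 < gx τ s ρ e P i t ∧
    U (fun _ => ρ i) R (gk s e P i) (gx τ s ρ e P i) t ≤ w)).card

/-- all the points: ordinary for `c < N`, special for `c ≥ N` -/
def comb (R N τ s : ℕ) (ν κ x ρ e P : ℕ → ℕ) (c z : ℕ) : ℕ :=
  if c < N then va ν R κ x c z else gv R τ s ρ e P (c - N) z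

/-- all the multiplicities -/
def cν (N : ℕ) (ν ρ : ℕ → ℕ) (c : ℕ) : ℕ := if c < N then ν c else ρ (c - N)

/-! ### The zone -/

/-- What the zone needs to know about the special points: `L` are the lengths which remain for the
ordinary points, `o` the number of special points alive, `k` their skips, `D`, `S` the weighted deaths
and skips. `A = ∑_{c < N} T (ν c) + W`. -/
structure Ext (R K b β s : ℕ) (A : ℤ) (L o k D S : ℕ → ℕ) : Prop where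
  β1 : 1 ≤ β
  s1 : 1 ≤ s
  inc : ∀ y, s ≤ y → y + 1 < R → L (y + 1) = L y + β + o y + k y
  tot : ∀ y, s ≤ y → y < R →
    ∑ z ∈ range y, (L z : ℤ) + (R - y : ℕ) * L y + (β + o y) * T (R - 1 - y) + S y = A + D y
  oa : ∀ y, s ≤ y → y + 1 < R → o (y + 1) ≤ o y
  Dn : D (R - 1) = 0
  Sq : ∀ y, s ≤ y → y < R → 2 ^ 30 * S y ≤ (R - 1 - y) * (2 ^ 30 * K + (R - y) * b)
  kq : ∀ y, s ≤ y → y < R → 2 ^ 30 * ∑ j ∈ Ico y (R - 1), k j ≤ 2 ^ 30 * K + (R - y) * b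

/-- the pause before the row `s`, seen from the zone (the rows `R - 1 - μ ≤ t < s`) -/
def Pau (μ : ℕ) (ν : ℕ → ℕ) (R s : ℕ) (κ x : ℕ → ℕ) : Prop :=
  ∀ t, R ≤ t + 1 + μ → t < s → κ t = κ (s - 1) ∧ x t = na ν R (κ t) t

/-- the excess of the decrease of the load over the decrease allowed by the rows -/
def Gz (ν : ℕ → ℕ) (R N β : ℕ) (κ x o : ℕ → ℕ) (y : ℕ) : ℤ :=
  (β : ℤ) + o y + oo ν R κ x y - f1 ν R N κ y

/-- the common hypotheses of the zone packets: `N` ordinary points, the zone are the rows `y ≥ s`;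
the points which are alive there have multiplicities `≤ μ` -/
structure Zc (μ R N K b l Lg β s ℓs : ℕ) (W : ℤ) (ν L o k D S κ x : ℕ → ℕ) : Prop where
  μ1 : 16 ≤ μ
  l1 : 1 ≤ l
  L1 : 1 ≤ Lg
  μL : μ ≤ 2 ^ Lg
  R1 : 9 * μ + 2 ≤ R
  Js : R < s + 1 + μ
  nu : NU ν R
  ext : Ext R K b β s (((∑ c ∈ range N, T (ν c) : ℕ) : ℤ) + W) L o k D S
  play : Play ν R N κ x
  big : ∀ c < N, μ < ν c → ac R κ x c + ν c + 8 * μ + 1 ≤ R
  pau : Pau μ ν R s κ x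
  al : ∀ y, s ≤ y → y < R → μ * (Al ν R κ x y).card ≤ 15 * ℓs
  hi : l * ℓs ≤ μ ^ 3
  Llo : ∀ y, s ≤ y → y < R → ℓs ≤ 4 * L y
  lo : 4 * μ ^ 2 ≤ l * ℓs
  u1 : 2 ^ 20 * (l * ℓs) ≤ μ ^ 3
  u2 : 2 ^ 20 * (l * Lg) ≤ μ
  u3 : 2 ^ 20 * (l * K) ≤ μ ^ 2
  u4 : l * b ≤ μ
  u5 : 2 ^ 20 * l * |W| ≤ (μ : ℤ) ^ 3

/-- the numerical conditions on a distance `w`; `g` is the size of the deaths -/
structure Zw (μ K b Lg ℓs w g : ℕ) (W : ℤ) : Prop where
  bg : b ≤ g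
  g1 : 2 ^ 40 * Lg ≤ g
  g2 : 2 ^ 28 * ℓs ≤ μ * w * g
  g3 : 2 ^ 28 * K ≤ w * g
  g4 : 2 ^ 26 * |W| ≤ ((w ^ 2 * g : ℕ) : ℤ)

/-- what is proved for the rows of the zone by induction; `g` is a monotone function of the distance -/
def Okz (μ R N β l Lg ℓs : ℕ) (g ν κ x o : ℕ → ℕ) (z : ℕ) : Prop :=
  ((g (R - 1 - z) : ℕ) : ℤ) ≤ 2 ^ 21 * (Gz ν R N β κ x o z - 1) ∧
  (2 * μ ≤ 3 * (R - 1 - z) → ((R - 1 - z : ℕ) : ℤ) ≤ 125 * l * (Gz ν R N β κ x o z - 1)) ∧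
  μ * Pn ν R κ x z ≤ 16 * ℓs + 12 * μ * (R - 1 - z) * Lg

/-- the rows of the zone, at a distance more than `4 w`, at which `c` was moving with a skip in the last `w`
rows -/
def Ec (ν : ℕ → ℕ) (R s : ℕ) (κ x : ℕ → ℕ) (y c : ℕ) : Finset ℕ :=
  (range y).filter (fun t => s ≤ t ∧ 4 * (R - 1 - y) < R - 1 - t ∧ κ t = c ∧ 0 < x t ∧
    U ν R κ x t ≤ R - 1 - y)

end Pool.Agent.Helper43.Uw
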